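import Pool.Agent.Helper54.SR.Defs
import Pool.Agent.Helper18.PW.Places1

/-!
# SR-L0, SR-L4: existence of places, local parameters of `k(X)`
-/

set_option autoImplicit false
set_option linter.unusedVariables false
set_option linter.unusedSectionVars false
open scoped Pointwise
open Polynomial Pool.Agent.Helper54.PW

namespace Pool.Agent.Helper54.SR

/-- the place of `k(X)` at `X = c` -/
private theorem h55_base_place (k : Type) [Field k] (c : k) :
    ∃ A : ValuationSubring (RatFunc k), IsPlace k A ∧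
      RatFunc.X - algebraMap k (RatFunc k) c ∈ A.nonunits := by
  have hp : Prime (X - C c : k[X]) := prime_X_sub_C c
  let v : IsDedekindDomain.HeightOneSpectrum k[X] :=
    ⟨Ideal.span {X - C c}, (Ideal.span_singleton_prime hp.ne_zero).2 hp, by
      rw [Ne, Ideal.span_singleton_eq_bot]
      exact hp.ne_zero⟩
  have e : algebraMap k[X] (RatFunc k) (X - C c) = RatFunc.X - algebraMap k (RatFunc k) c := by
    rw [map_sub, RatFunc.algebraMap_X]
    rfl
  have h1 : (v.valuation (RatFunc k)) (RatFunc.X - algebraMap k (RatFunc k) c) < 1 := by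
    rw [← e]
    exact (IsDedekindDomain.HeightOneSpectrum.valuation_lt_one_iff_mem v (X - C c)).2
      (Ideal.mem_span_singleton_self _)
  have h0 : RatFunc.X - algebraMap k (RatFunc k) c ≠ 0 := by
    rw [← e]
    exact (map_ne_zero_iff _ (RatFunc.algebraMap_injective k)).2 hp.ne_zero
  refine ⟨(v.valuation (RatFunc k)).valuationSubring, ⟨?_, fun d => ?_⟩, ?_⟩
  · intro h
    have h2 : (RatFunc.X - algebraMap k (RatFunc k) c)⁻¹ ∈
        (v.valuation (RatFunc k)).valuationSubring := by
      rw [h]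
      trivial
    rw [Valuation.mem_valuationSubring_iff, map_inv₀] at h2
    have h3 : 0 < (v.valuation (RatFunc k)) (RatFunc.X - algebraMap k (RatFunc k) c) :=
      zero_lt_iff.2 ((_root_.map_ne_zero _).2 h0)
    exact absurd ((one_lt_inv₀ h3).2 h1) (not_lt.2 h2)
  · rw [Valuation.mem_valuationSubring_iff]
    have : algebraMap k (RatFunc k) d = algebraMap k[X] (RatFunc k) (C d) := rfl
    rw [this]
    exact IsDedekindDomain.HeightOneSpectrum.valuation_le_one v (C d)
  · rw [ValuationSubring.mem_nonunits_iff_or]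
    right
    intro h2
    rw [Valuation.mem_valuationSubring_iff, map_inv₀] at h2
    have h3 : 0 < (v.valuation (RatFunc k)) (RatFunc.X - algebraMap k (RatFunc k) c) :=
      zero_lt_iff.2 ((_root_.map_ne_zero _).2 h0)
    exact absurd ((one_lt_inv₀ h3).2 h1) (not_lt.2 h2)

/-- SR-L0 -/
theorem exists_place_over (k L : Type) [Field k] [IsAlgClosed k] [Field L]
    [Algebra (RatFunc k) L] [FiniteDimensional (RatFunc k) L] (c : k) :
    ∃ A : ValuationSubring L, IsPl k A ∧ Over k A c := by
  let _ : Algebra k L := ((algebraMap (RatFunc k) L).comp (algebraMap k (RatFunc k))).toAlgebra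
  have : IsScalarTower k (RatFunc k) L := IsScalarTower.of_algebraMap_eq fun _ => rfl
  obtain ⟨A, hA, hc⟩ := h55_base_place k c
  obtain ⟨B, hB, hBA⟩ := exists_place_extension (Ω := L) A hA
  refine ⟨B, hB, ?_⟩
  have e : tX k L - co k L c = algebraMap (RatFunc k) L (RatFunc.X - algebraMap k (RatFunc k) c) := by
    rw [map_sub]
    rfl
  rw [Over, e]
  rw [ValuationSubring.mem_nonunits_iff_or] at hc ⊢
  rcases hc with hc | hc
  · left
    rw [hc, map_zero]
  · right
    intro h
    apply hc
    rw [← hBA]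
    change algebraMap (RatFunc k) L _ ∈ B
    rw [map_inv₀]
    exact h

section local'
variable {p : ℕ} [Fact p.Prime] {k L : Type} [Field k] [IsAlgClosed k] [CharP k p] [Field L]
  [Algebra (RatFunc k) L] [FiniteDimensional (RatFunc k) L] [IsGalois (RatFunc k) L]

/-- a polynomial in a nonunit with nonzero constant coefficient is a unit -/
private theorem h55_unit {k L : Type} [Field k] [Field L] [Algebra k L] (A : ValuationSubring L)
    (hA : ∀ c : k, algebraMap k L c ∈ A) {u : L} (hu : u ∈ A.nonunits) (g : k[X])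
    (hg : g.coeff 0 ≠ 0) : Un A (aeval u g) := by
  rw [ValuationSubring.mem_nonunits_iff] at hu
  have huA : u ∈ A := (A.valuation_le_one_iff u).1 hu.le
  obtain ⟨w, hw⟩ : X ∣ g - C (g.coeff 0) := by
    rw [X_dvd_iff]
    simp
  have h1 : g = C (g.coeff 0) + X * w := by rw [← hw]; ring
  have hwA : aeval u w ∈ A := by
    rw [aeval_eq_sum_range]
    refine sum_mem fun i _ => ?_
    rw [Algebra.smul_def]
    exact A.mul_mem _ _ (hA _) (pow_mem huA i)
  have h2 : A.valuation (u * aeval u w) < 1 := by
    rw [map_mul]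
    exact mul_lt_one_of_lt_of_le hu ((A.valuation_le_one_iff _).2 hwA)
  have h3 : A.valuation (aeval u g) = 1 := by
    rw [h1, map_add, map_mul, aeval_C, aeval_X, A.valuation.map_add_eq_of_lt_left]
    · exact Places1.val_const A hA hg
    · rw [Places1.val_const A hA hg]; exact h2
  refine ⟨?_, (A.valuation_le_one_iff _).1 h3.le, ?_⟩
  · intro h
    rw [h, map_zero] at h3
    exact zero_ne_one h3
  · rw [← A.valuation_le_one_iff, map_inv₀, h3, inv_one]

/-- from polynomials to rational functions -/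
private theorem h55_basePar (A : ValuationSubring L) (w : RatFunc k)
    (hw0 : w ≠ 0) (hw : algebraMap (RatFunc k) L w ∈ A.nonunits)
    (h : ∀ f : k[X], f ≠ 0 → ∃ n : ℤ,
      Un A (algebraMap (RatFunc k) L (algebraMap k[X] (RatFunc k) f * w ^ n))) :
    BasePar k A w := by
  refine ⟨hw0, hw, fun a ha => ?_⟩
  obtain ⟨n, -, n2, n3⟩ := h a.num (RatFunc.num_ne_zero ha)
  obtain ⟨m, m1, m2, m3⟩ := h a.denom (RatFunc.denom_ne_zero a)
  have hd : algebraMap k[X] (RatFunc k) a.denom ≠ 0 :=
    (map_ne_zero_iff _ (RatFunc.algebraMap_injective k)).2 (RatFunc.denom_ne_zero a)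
  have e : a * w ^ (n - m) = (algebraMap k[X] (RatFunc k) a.num * w ^ n) *
      (algebraMap k[X] (RatFunc k) a.denom * w ^ m)⁻¹ := by
    conv_lhs => rw [← RatFunc.num_div_denom a]
    rw [zpow_sub₀ hw0, mul_inv]
    field_simp
  refine ⟨n - m, ?_, ?_⟩
  · rw [e, map_mul, map_inv₀]
    exact A.mul_mem _ _ n2 m3
  · rw [e, map_mul, map_inv₀, mul_inv, inv_inv]
    exact A.mul_mem _ _ n3 m2

/-- SR-L4a -/
theorem basePar_finite (A : ValuationSubring L) (hA : IsPl k A) (c : k) (hc : Over k A c) :
    BasePar k A (RatFunc.X - algebraMap k (RatFunc k) c) := by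
  let _ : Algebra k L := ((algebraMap (RatFunc k) L).comp (algebraMap k (RatFunc k))).toAlgebra
  have : IsScalarTower k (RatFunc k) L := IsScalarTower.of_algebraMap_eq fun _ => rfl
  have e0 : algebraMap k[X] (RatFunc k) (X - C c) = RatFunc.X - algebraMap k (RatFunc k) c := by
    rw [map_sub, RatFunc.algebraMap_X]
    rfl
  have hw0 : RatFunc.X - algebraMap k (RatFunc k) c ≠ 0 := by
    rw [← e0]
    exact (map_ne_zero_iff _ (RatFunc.algebraMap_injective k)).2 (X_sub_C_ne_zero c)
  have hw : algebraMap (RatFunc k) L (RatFunc.X - algebraMap k (RatFunc k) c) ∈ A.nonunits := by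
    rw [map_sub]
    exact hc
  refine h55_basePar A _ hw0 hw fun f hf => ?_
  obtain ⟨u, hu, hu'⟩ := exists_eq_pow_rootMultiplicity_mul_and_not_dvd f hf c
  have hu0 : u.eval c ≠ 0 := fun h => hu' (dvd_iff_isRoot.2 h)
  have h1 : (u.comp (X + C c)).coeff 0 ≠ 0 := by
    rw [coeff_zero_eq_eval_zero, eval_comp]
    simpa using hu0
  have h2 := h55_unit (k := k) A hA.2 hw (u.comp (X + C c)) h1
  have h3 : aeval (algebraMap (RatFunc k) L (RatFunc.X - algebraMap k (RatFunc k) c))
      (u.comp (X + C c)) = algebraMap (RatFunc k) L (algebraMap k[X] (RatFunc k) u) := by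
    rw [aeval_comp, map_add, aeval_X, aeval_C, map_sub,
      ← IsScalarTower.algebraMap_apply k (RatFunc k) L, sub_add_cancel, aeval_algebraMap_apply]
    congr 1
    rw [← RatFunc.algebraMap_X, aeval_algebraMap_apply, aeval_X_left_apply]
  generalize f.rootMultiplicity c = e at hu
  refine ⟨-(e : ℤ), ?_⟩
  have h4 : algebraMap k[X] (RatFunc k) f *
      (RatFunc.X - algebraMap k (RatFunc k) c) ^ (-(e : ℤ)) =
      algebraMap k[X] (RatFunc k) u := by
    rw [hu, map_mul, map_pow, e0, zpow_neg, zpow_natCast]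
    field_simp
  rw [h4, ← h3]
  exact h2

/-- SR-L4b -/
theorem basePar_infty (A : ValuationSubring L) (hA : IsPl k A) (hX : tX k L ∉ A) :
    BasePar k A (RatFunc.X)⁻¹ := by
  let _ : Algebra k L := ((algebraMap (RatFunc k) L).comp (algebraMap k (RatFunc k))).toAlgebra
  have : IsScalarTower k (RatFunc k) L := IsScalarTower.of_algebraMap_eq fun _ => rfl
  have hX0 : (RatFunc.X : RatFunc k) ≠ 0 := RatFunc.X_ne_zero
  have hw : algebraMap (RatFunc k) L (RatFunc.X)⁻¹ ∈ A.nonunits := by
    rw [map_inv₀, ValuationSubring.mem_nonunits_iff_or]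
    right
    rw [inv_inv]
    exact hX
  refine h55_basePar A _ (inv_ne_zero hX0) hw fun f hf => ?_
  have h1 : f.reverse.coeff 0 ≠ 0 := by
    rw [coeff_zero_reverse]
    exact leadingCoeff_ne_zero.2 hf
  have h2 := h55_unit (k := k) A hA.2 hw f.reverse h1
  refine ⟨(f.natDegree : ℤ), ?_⟩
  have h3 : algebraMap k[X] (RatFunc k) f * (RatFunc.X)⁻¹ ^ (f.natDegree : ℤ) =
      aeval (RatFunc.X)⁻¹ f.reverse := by
    have hi : Invertible (RatFunc.X : RatFunc k) := invertibleOfNonzero hX0
    have := eval₂_reverse_mul_pow (algebraMap k (RatFunc k)) (RatFunc.X : RatFunc k) f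
    rw [invOf_eq_inv] at this
    have h5 : eval₂ (algebraMap k (RatFunc k)) RatFunc.X f = algebraMap k[X] (RatFunc k) f := by
      rw [← aeval_def, ← RatFunc.algebraMap_X, aeval_algebraMap_apply, aeval_X_left_apply]
    rw [h5] at this
    rw [← this, aeval_def, zpow_natCast, mul_assoc, ← mul_pow, mul_inv_cancel₀ hX0, one_pow,
      mul_one]
  rw [h3, ← aeval_algebraMap_apply]
  exact h2

/-- SR-L4c -/
theorem exists_over (A : ValuationSubring L) (hA : IsPl k A) (hX : tX k L ∈ A) :
    ∃ c : k, Over k A c := by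
  let _ : Algebra k L := ((algebraMap (RatFunc k) L).comp (algebraMap k (RatFunc k))).toAlgebra
  have : IsScalarTower k (RatFunc k) L := IsScalarTower.of_algebraMap_eq fun _ => rfl
  exact residue (ff_of_algebraic k L) A hA (tX k L) hX

end local'

end Pool.Agent.Helper54.SR
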