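import Pool.Agent.Helper39.SR.Aug

/-!
# Weighted augmentations
-/

set_option autoImplicit false

namespace Pool.Agent.Helper39.SR

variable {E : Type} [Fintype E] [DecidableEq E]

/-- `X` augments `B` with respect to the potential `u`. -/
def AugmW {k : ℕ} (M : Fin k → Matroid E) (u : E → ℝ) (B X : Finset E) : Prop :=
  X.card ≤ 2 ∧ ∃ B' : Finset E, (∀ i, (M i).Indep (B' : Set E)) ∧ B' ⊆ B ∪ X ∧
    ∑ e ∈ B, u e < ∑ e ∈ B', u e

/-- Classes (heavy first), weights constant on classes, and a potential. -/
structure Cls (cls : E → ℕ) (v u : E → ℝ) : Prop where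
  v0 : ∀ e, 0 < v e
  v1 : ∀ e e', cls e = cls e' → v e = v e'
  v2 : ∀ e e', cls e < cls e' → 2 * v e' ≤ v e
  u0 : ∀ e, 0 < u e
  u1 : ∀ e e', cls e = cls e' → u e = u e'
  u2 : ∀ e e', cls e < cls e' → (Fintype.card E : ℝ) * u e' < u e

/-- Exchange at all levels at once. -/
theorem exchW (M : Matroid E) {B S : Finset E} (cls : E → ℕ) (P : ℕ → Finset E)
    (hS : M.Indep (S : Set E)) (hP : ∀ i, M.Indep (P i : Set E))
    (hPU : ∀ i, ∀ y ∈ P i, (y ∈ B ∧ cls y ≤ i) ∨ (y ∈ S ∧ cls y = i))
    (hspan : ∀ e ∈ S, e ∈ M.closure (P (cls e) : Set E)) :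
    ∃ φ : E → E, (∀ e ∈ S \ B, e ∉ P (cls e) → φ e ∈ B \ S ∧ cls (φ e) ≤ cls e ∧
      M.Indep ((insert e ((P (cls e)).erase (φ e)) : Finset E) : Set E)) ∧
      Set.InjOn φ (((S \ B).filter fun e => e ∉ P (cls e) : Finset E) : Set E) := by
  classical
  set D : Finset E := (S \ B).filter fun e => e ∉ P (cls e) with hD
  let T : {e // e ∈ D} → Finset E := fun e =>
    (B \ S).filter fun y => cls y ≤ cls e.1 ∧
      M.Indep ((insert e.1 ((P (cls e.1)).erase y) : Finset E) : Set E)
  have hall : ∀ A : Finset {e // e ∈ D}, A.card ≤ (A.biUnion T).card := by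
    intro A
    set N : Finset E := A.biUnion T with hN
    set A' : Finset E := A.map ⟨Subtype.val, Subtype.val_injective⟩ with hA'
    have hA'D : A' ⊆ D := by
      intro e he
      rw [hA', Finset.mem_map] at he
      obtain ⟨a, -, rfl⟩ := he
      exact a.2
    have hDS : D ⊆ S := (Finset.filter_subset _ _).trans Finset.sdiff_subset
    set G : Finset E := S \ D with hG
    set Z : Finset E := G ∪ N with hZ
    have hcl : ∀ e ∈ A', e ∈ M.closure (Z : Set E) := by
      intro e he
      have heD := Finset.mem_filter.1 (hA'D he)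
      have heSB := Finset.mem_sdiff.1 heD.1
      have hecl : e ∈ M.closure (P (cls e) : Set E) := hspan e heSB.1
      have heP : e ∉ (P (cls e) : Set E) := fun h => heD.2 (Finset.mem_coe.1 h)
      have hC := (hP (cls e)).fundCircuit_isCircuit hecl heP
      have h1 : e ∈ M.closure (M.fundCircuit e (P (cls e)) \ {e}) :=
        hC.mem_closure_sdiff_singleton_of_mem (M.mem_fundCircuit e _)
      refine M.closure_subset_closure ?_ h1
      rintro y ⟨hyC, hye⟩
      have hye' : y ≠ e := hye
      have hyP : y ∈ P (cls e) := by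
        have := M.fundCircuit_subset_insert e (P (cls e) : Set E) hyC
        rcases Set.mem_insert_iff.1 this with h | h
        · exact absurd h hye'
        · exact Finset.mem_coe.1 h
      rw [Finset.mem_coe, hZ, Finset.mem_union]
      by_cases hyS : y ∈ S
      · left
        rw [hG, Finset.mem_sdiff]
        refine ⟨hyS, fun hyD => ?_⟩
        have h2 := Finset.mem_filter.1 hyD
        rcases hPU (cls e) y hyP with h | h
        · exact (Finset.mem_sdiff.1 h2.1).2 h.1
        · exact h2.2 (h.2.symm ▸ hyP)
      · right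
        rw [hA', Finset.mem_map] at he
        obtain ⟨a, ha, hae⟩ := he
        rw [hN, Finset.mem_biUnion]
        have hae' : a.1 = e := hae
        have hyB : y ∈ B ∧ cls y ≤ cls e := by
          rcases hPU (cls e) y hyP with h | h
          · exact h
          · exact absurd h.1 hyS
        refine ⟨a, ha, Finset.mem_filter.2 ⟨Finset.mem_sdiff.2 ⟨hyB.1, hyS⟩, ?_, ?_⟩⟩
        · rw [hae']
          exact hyB.2
        · rw [hae']
          have h2 := ((hP (cls e)).mem_fundCircuit_iff hecl heP).1 hyC
          have h3 : ((insert e ((P (cls e)).erase y) : Finset E) : Set E) =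
              insert e (P (cls e) : Set E) \ {y} := by
            rw [Finset.coe_insert, Finset.coe_erase, Set.insert_sdiff_singleton_comm hye'.symm]
          rw [h3]
          exact h2
    have hind : M.Indep ((G ∪ A' : Finset E) : Set E) := by
      refine hS.subset (Finset.coe_subset.2 (Finset.union_subset Finset.sdiff_subset ?_))
      exact hA'D.trans hDS
    have hNP : ∀ y ∈ N, y ∈ M.E := by
      intro y hy
      rw [hN, Finset.mem_biUnion] at hy
      obtain ⟨a, -, ha⟩ := hy
      have h2 := Finset.mem_filter.1 ha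
      by_contra hyE
      have haD := Finset.mem_filter.1 a.2
      have haS := (Finset.mem_sdiff.1 haD.1).1
      -- the set inserted is independent and spans, contradiction with the ground set
      have hyP : y ∉ P (cls a.1) := fun h => hyE ((hP _).subset_ground (Finset.mem_coe.2 h))
      have h3 : (P (cls a.1)).erase y = P (cls a.1) := Finset.erase_eq_of_notMem hyP
      rw [h3] at h2
      have h4 := h2.2.2
      rw [Finset.coe_insert] at h4
      have h5 := h4.notMem_closure_sdiff_of_mem (Set.mem_insert _ _)
      apply h5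
      have h6 : (insert a.1 (P (cls a.1) : Set E)) \ {a.1} = (P (cls a.1) : Set E) := by
        rw [Set.insert_sdiff_of_mem _ (Set.mem_singleton _)]
        refine Set.sdiff_singleton_eq_self ?_
        exact fun h => haD.2 (Finset.mem_coe.1 h)
      rw [h6]
      exact hspan a.1 haS
    have hZE : (Z : Set E) ⊆ M.E := by
      intro y hy
      rw [Finset.mem_coe, hZ, Finset.mem_union] at hy
      rcases hy with hy | hy
      · exact hS.subset_ground (Finset.mem_coe.2 (Finset.sdiff_subset hy))
      · exact hNP y hy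
    have hle := card_le_of_subset_closure M hind (T := Z) (by
      intro e he
      rw [Finset.mem_coe, Finset.mem_union] at he
      rcases he with he | he
      · exact M.mem_closure_of_mem (Finset.mem_coe.2 (Finset.mem_union_left _ he)) hZE
      · exact hcl e he)
    have hdisj : Disjoint G A' := by
      rw [Finset.disjoint_left]
      intro e he he'
      exact (Finset.mem_sdiff.1 he).2 (hA'D he')
    rw [Finset.card_union_of_disjoint hdisj] at hle
    have h4 : Z.card ≤ G.card + N.card := Finset.card_union_le _ _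
    have h5 : A'.card = A.card := Finset.card_map _
    omega
  obtain ⟨f, hf1, hf2⟩ := (Finset.all_card_le_biUnion_card_iff_exists_injective T).1 hall
  refine ⟨fun e => if h : e ∈ D then f ⟨e, h⟩ else e, ?_, ?_⟩
  · intro e he heP
    have heD : e ∈ D := Finset.mem_filter.2 ⟨he, heP⟩
    have h0 := hf2 ⟨e, heD⟩
    rw [Finset.mem_filter] at h0
    simp only [dif_pos heD]
    exact ⟨h0.1, h0.2.1, h0.2.2⟩
  · intro a ha b hb hab
    have ha' := Finset.mem_coe.1 ha
    have hb' := Finset.mem_coe.1 hb
    simp only [dif_pos ha', dif_pos hb'] at hab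
    exact congrArg Subtype.val (hf1 hab)

/-- Replacing the light part by one element increases the potential. -/
theorem pot_lt {cls : E → ℕ} {v u : E → ℝ} (h : Cls cls v u) (B : Finset E) (e : E) :
    ∑ y ∈ B, u y < ∑ y ∈ B.filter (fun y => cls y ≤ cls e), u y + u e := by
  classical
  have h1 := Finset.sum_filter_add_sum_filter_not B (fun y => cls y ≤ cls e) u
  have h2 : ∑ y ∈ B.filter (fun y => ¬ cls y ≤ cls e), u y < u e := by
    rcases (B.filter (fun y => ¬ cls y ≤ cls e)).eq_empty_or_nonempty with h3 | h3
    · rw [h3, Finset.sum_empty]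
      exact h.u0 e
    · have hcard : (0 : ℝ) < Fintype.card E := by
        obtain ⟨y, _⟩ := h3
        exact_mod_cast Fintype.card_pos_iff.2 ⟨y⟩
      have h4 : ∀ y ∈ B.filter (fun y => ¬ cls y ≤ cls e), u y < u e / Fintype.card E := by
        intro y hy
        have h5 := (Finset.mem_filter.1 hy).2
        rw [lt_div_iff₀ hcard, mul_comm]
        exact h.u2 e y (by omega)
      calc ∑ y ∈ B.filter (fun y => ¬ cls y ≤ cls e), u y
          < ∑ y ∈ B.filter (fun y => ¬ cls y ≤ cls e), u e / Fintype.card E :=
            Finset.sum_lt_sum_of_nonempty h3 h4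
        _ = ((B.filter (fun y => ¬ cls y ≤ cls e)).card : ℝ) * (u e / Fintype.card E) := by
            rw [Finset.sum_const, nsmul_eq_mul]
        _ ≤ (Fintype.card E : ℝ) * (u e / Fintype.card E) := by
            apply mul_le_mul_of_nonneg_right _ (div_nonneg (h.u0 e).le hcard.le)
            exact_mod_cast Finset.card_le_univ _
        _ = u e := by field_simp
  linarith

/-- **The weighted augmentation lemma.** -/
theorem augmentW {k : ℕ} (hk : 1 ≤ k) (M : Fin k → Matroid E) (hE : ∀ i, (M i).E = Set.univ)
    {cls : E → ℕ} {v u : E → ℝ} (h : Cls cls v u)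
    {B S : Finset E} (hB : ∀ i, (M i).Indep (B : Set E)) (hS : ∀ i, (M i).Indep (S : Set E))
    (hlt : (k + 1) * ∑ e ∈ B, v e < 2 * ∑ e ∈ S, v e) :
    ∃ X : Finset E, X ⊆ S \ B ∧ X.Nonempty ∧ AugmW M u B X := by
  classical
  have hP : ∀ (l : Fin k) (i : ℕ), ∃ P : Finset E, B.filter (fun y => cls y ≤ i) ⊆ P ∧
      P ⊆ B.filter (fun y => cls y ≤ i) ∪ S.filter (fun y => cls y = i) ∧
      (M l).Indep (P : Set E) ∧
      ((S.filter (fun y => cls y = i) : Finset E) : Set E) ⊆ (M l).closure (P : Set E) := by
    intro l i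
    have hBi : (M l).Indep ((B.filter (fun y => cls y ≤ i) : Finset E) : Set E) :=
      (hB l).subset (Finset.coe_subset.2 (Finset.filter_subset _ _))
    obtain ⟨J, hJ, hBJ⟩ := hBi.subset_isBasis_of_subset
      (X := ((B.filter (fun y => cls y ≤ i) ∪ S.filter (fun y => cls y = i) : Finset E) : Set E))
      (Finset.coe_subset.2 Finset.subset_union_left)
      (by rw [hE l]; exact Set.subset_univ _)
    lift J to Finset E using Set.toFinite J
    refine ⟨J, Finset.coe_subset.1 hBJ, Finset.coe_subset.1 hJ.subset, hJ.indep, ?_⟩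
    exact (Finset.coe_subset.2 Finset.subset_union_right).trans hJ.subset_closure
  choose P hBP hPU hPi hPcl using hP
  have hPU' : ∀ l i, ∀ y ∈ P l i, (y ∈ B ∧ cls y ≤ i) ∨ (y ∈ S ∧ cls y = i) := by
    intro l i y hy
    rcases Finset.mem_union.1 (hPU l i hy) with h1 | h1
    · exact Or.inl (Finset.mem_filter.1 h1)
    · exact Or.inr (Finset.mem_filter.1 h1)
  have hφ := fun l => exchW (M l) (B := B) (S := S) cls (P l) (hS l) (hPi l) (hPU' l)
    (fun e he => hPcl l (cls e) (Finset.mem_coe.2 (Finset.mem_filter.2 ⟨he, rfl⟩)))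
  choose φ hφ1 hφ2 using hφ
  -- an element addable everywhere
  by_cases hadd : ∃ e ∈ S \ B, ∀ l, e ∈ P l (cls e)
  · obtain ⟨e, he, heP⟩ := hadd
    have heB := (Finset.mem_sdiff.1 he).2
    refine ⟨{e}, by simpa using he, Finset.singleton_nonempty e, by simp,
      insert e (B.filter (fun y => cls y ≤ cls e)), ?_, ?_, ?_⟩
    · intro l
      exact (hPi l (cls e)).subset
        (Finset.coe_subset.2 (Finset.insert_subset (heP l) (hBP l (cls e))))
    · intro x hx
      rw [Finset.mem_insert, Finset.mem_filter] at hx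
      rw [Finset.mem_union, Finset.mem_singleton]
      tauto
    · rw [Finset.sum_insert (fun h1 => heB (Finset.mem_filter.1 h1).1)]
      have := pot_lt h B e
      linarith
  · push Not at hadd
    let cf : E → Finset (Fin k) := fun e => Finset.univ.filter fun l => e ∉ P l (cls e)
    have hcf1 : ∀ e ∈ S \ B, 1 ≤ (cf e).card := by
      intro e he
      obtain ⟨l, hl⟩ := hadd e he
      exact Finset.card_pos.2 ⟨l, Finset.mem_filter.2 ⟨Finset.mem_univ l, hl⟩⟩
    -- the unique bad matroid
    have hl' : ∃ l : E → Fin k, ∀ e ∈ S \ B, l e ∈ cf e := by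
      refine ⟨fun e => if h1 : ∃ l, l ∈ cf e then h1.choose else ⟨0, hk⟩, fun e he => ?_⟩
      have h1 : ∃ l, l ∈ cf e := Finset.card_pos.1 (hcf1 e he)
      simp only [dif_pos h1]
      exact h1.choose_spec
    obtain ⟨l, hl⟩ := hl'
    let U : Finset E := (S \ B).filter fun e => (cf e).card = 1 ∧ cls (φ (l e) e) = cls e
    have hUS : ∀ e ∈ U, e ∈ S \ B := fun e he => (Finset.mem_filter.1 he).1
    have hlP : ∀ e ∈ S \ B, e ∉ P (l e) (cls e) := fun e he =>
      (Finset.mem_filter.1 (hl e he)).2
    have hUo : ∀ e ∈ U, ∀ i, i ≠ l e → e ∈ P i (cls e) := by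
      intro e he i hi
      have h1 : (cf e).card = 1 := (Finset.mem_filter.1 he).2.1
      obtain ⟨a, ha⟩ := Finset.card_eq_one.1 h1
      have h2 := hl e (hUS e he)
      rw [ha, Finset.mem_singleton] at h2
      by_contra h3
      have h4 : i ∈ cf e := Finset.mem_filter.2 ⟨Finset.mem_univ i, h3⟩
      rw [ha, Finset.mem_singleton] at h4
      exact hi (h4.trans h2.symm)
    by_cases hinj : Set.InjOn (fun e => φ (l e) e) ((U : Finset E) : Set E)
    · -- charging
      exfalso
      have hD : ∀ i : Fin k, ∑ e ∈ (S \ B).filter (fun e => e ∉ P i (cls e)), v (φ i e) ≤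
          ∑ y ∈ B \ S, v y := by
        intro i
        rw [← Finset.sum_image (f := v) (hφ2 i)]
        refine Finset.sum_le_sum_of_subset_of_nonneg ?_ fun y _ _ => (h.v0 y).le
        intro y hy
        obtain ⟨e, he, rfl⟩ := Finset.mem_image.1 hy
        have h1 := Finset.mem_filter.1 he
        exact (hφ1 i e h1.1 h1.2).1
      have hU : ∑ e ∈ U, v (φ (l e) e) ≤ ∑ y ∈ B \ S, v y := by
        rw [← Finset.sum_image (f := v) (g := fun e => φ (l e) e) hinj]
        refine Finset.sum_le_sum_of_subset_of_nonneg ?_ fun y _ _ => (h.v0 y).le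
        intro y hy
        obtain ⟨e, he, rfl⟩ := Finset.mem_image.1 hy
        exact (hφ1 (l e) e (hUS e he) (hlP e (hUS e he))).1
      have hv : ∀ e ∈ S \ B, ∀ i ∈ cf e, v e ≤ v (φ i e) := by
        intro e he i hi
        have h1 := hφ1 i e he (Finset.mem_filter.1 hi).2
        rcases Nat.lt_or_ge (cls (φ i e)) (cls e) with h2 | h2
        · have := h.v2 _ _ h2
          have := h.v0 e
          linarith
        · exact (h.v1 _ _ (le_antisymm h1.2.1 h2)).symm.le
      have hpt : ∀ e ∈ S \ B, 2 * v e ≤ ∑ i ∈ cf e, v (φ i e) +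
          (if e ∈ U then v (φ (l e) e) else 0) := by
        intro e he
        rcases Nat.lt_or_ge 1 (cf e).card with h1 | h1
        · have h2 : ∑ i ∈ cf e, v e ≤ ∑ i ∈ cf e, v (φ i e) :=
            Finset.sum_le_sum fun i hi => hv e he i hi
          rw [Finset.sum_const, nsmul_eq_mul] at h2
          have h3 : (2 : ℝ) ≤ (cf e).card := by exact_mod_cast h1
          have h4 : 2 * v e ≤ (cf e).card * v e := mul_le_mul_of_nonneg_right h3 (h.v0 e).le
          have h5 : (0 : ℝ) ≤ if e ∈ U then v (φ (l e) e) else 0 := by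
            split_ifs
            · exact (h.v0 _).le
            · exact le_rfl
          linarith
        · have h2 : (cf e).card = 1 := le_antisymm h1 (hcf1 e he)
          have h3 : v (φ (l e) e) ≤ ∑ i ∈ cf e, v (φ i e) :=
            Finset.single_le_sum (f := fun i => v (φ i e)) (fun i _ => (h.v0 _).le) (hl e he)
          have h4 := hφ1 (l e) e he (hlP e he)
          by_cases h5 : cls (φ (l e) e) = cls e
          · have h6 : e ∈ U := Finset.mem_filter.2 ⟨he, h2, h5⟩
            rw [if_pos h6]
            have h7 := h.v1 _ _ h5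
            linarith
          · have h6 : cls (φ (l e) e) < cls e := lt_of_le_of_ne h4.2.1 h5
            have h7 := h.v2 _ _ h6
            have h8 : (0 : ℝ) ≤ if e ∈ U then v (φ (l e) e) else 0 := by
              split_ifs
              · exact (h.v0 _).le
              · exact le_rfl
            linarith
      have hsum := Finset.sum_le_sum hpt
      rw [Finset.sum_add_distrib, ← Finset.mul_sum] at hsum
      have h1 : ∑ e ∈ S \ B, ∑ i ∈ cf e, v (φ i e) ≤ k * ∑ y ∈ B \ S, v y := by
        have h2 : ∀ e ∈ S \ B, ∑ i ∈ cf e, v (φ i e) =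
            ∑ i : Fin k, if e ∉ P i (cls e) then v (φ i e) else 0 := by
          intro e _
          simp only [cf]
          rw [Finset.sum_filter]
        rw [Finset.sum_congr rfl h2, Finset.sum_comm]
        have h3 : ∀ i ∈ (Finset.univ : Finset (Fin k)),
            (∑ e ∈ S \ B, if e ∉ P i (cls e) then v (φ i e) else 0) ≤ ∑ y ∈ B \ S, v y := by
          intro i _
          rw [← Finset.sum_filter]
          exact hD i
        refine (Finset.sum_le_sum h3).trans ?_
        rw [Finset.sum_const, Finset.card_univ, Fintype.card_fin, nsmul_eq_mul]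
      have h2 : ∑ e ∈ S \ B, (if e ∈ U then v (φ (l e) e) else 0) ≤ ∑ y ∈ B \ S, v y := by
        rw [← Finset.sum_filter]
        refine le_trans (le_of_eq (Finset.sum_congr ?_ fun _ _ => rfl)) hU
        ext e
        rw [Finset.mem_filter]
        exact ⟨fun h3 => h3.2, fun h3 => ⟨hUS e h3, h3⟩⟩
      have h3 : ∑ e ∈ S \ B, v e + ∑ e ∈ S ∩ B, v e = ∑ e ∈ S, v e := by
        rw [add_comm]
        exact Finset.sum_inter_add_sum_sdiff S B v
      have h4 : ∑ e ∈ B \ S, v e + ∑ e ∈ S ∩ B, v e = ∑ e ∈ B, v e := by
        rw [add_comm, Finset.inter_comm]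
        exact Finset.sum_inter_add_sum_sdiff B S v
      have h5 : (0 : ℝ) ≤ ∑ e ∈ S ∩ B, v e := Finset.sum_nonneg fun e _ => (h.v0 e).le
      have h6 : (1 : ℝ) ≤ k := by exact_mod_cast hk
      nlinarith
    · -- a pair
      simp only [Set.InjOn, not_forall] at hinj
      obtain ⟨e, he, e', he', hyy, hne⟩ := hinj
      have heU := Finset.mem_coe.1 he
      have heU' := Finset.mem_coe.1 he'
      have hyy' : φ (l e) e = φ (l e') e' := hyy
      have hc1 : cls (φ (l e) e) = cls e := (Finset.mem_filter.1 heU).2.2
      have hc2 : cls (φ (l e') e') = cls e' := (Finset.mem_filter.1 heU').2.2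
      have hcc : cls e' = cls e := by rw [← hc2, ← hyy', hc1]
      set y : E := φ (l e) e with hy
      have h1 := hφ1 (l e) e (hUS e heU) (hlP e (hUS e heU))
      have h2 := hφ1 (l e') e' (hUS e' heU') (hlP e' (hUS e' heU'))
      rw [← hyy', hcc] at h2
      have hlne : l e ≠ l e' := by
        intro h3
        have h4 : φ (l e) e = φ (l e) e' := by
          rw [← hy, hyy', h3]
        refine hne (hφ2 (l e) ?_ ?_ h4)
        · exact Finset.mem_coe.2 (Finset.mem_filter.2 ⟨hUS e heU, hlP e (hUS e heU)⟩)
        · refine Finset.mem_coe.2 (Finset.mem_filter.2 ⟨hUS e' heU', ?_⟩)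
          rw [h3]
          exact hlP e' (hUS e' heU')
      have hyB := (Finset.mem_sdiff.1 h1.1).1
      have hyS := (Finset.mem_sdiff.1 h1.1).2
      have heS := (Finset.mem_sdiff.1 (hUS e heU)).1
      have heB := (Finset.mem_sdiff.1 (hUS e heU)).2
      have heS' := (Finset.mem_sdiff.1 (hUS e' heU')).1
      have heB' := (Finset.mem_sdiff.1 (hUS e' heU')).2
      set Bi : Finset E := B.filter (fun y => cls y ≤ cls e) with hBi
      have hyBi : y ∈ Bi := Finset.mem_filter.2 ⟨hyB, hc1.le⟩
      have heBi : e ∉ Bi := fun h3 => heB (Finset.mem_filter.1 h3).1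
      have heBi' : e' ∉ Bi := fun h3 => heB' (Finset.mem_filter.1 h3).1
      refine ⟨{e, e'}, ?_, ⟨e, by simp⟩, Finset.card_le_two,
        insert e (insert e' (Bi.erase y)), ?_, ?_, ?_⟩
      · intro x hx
        rw [Finset.mem_insert, Finset.mem_singleton] at hx
        rcases hx with rfl | rfl
        · exact hUS _ heU
        · exact hUS _ heU'
      · intro i
        by_cases h3 : i = l e
        · subst h3
          refine h1.2.2.subset (Finset.coe_subset.2 ?_)
          refine Finset.insert_subset_insert e (Finset.insert_subset ?_ ?_)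
          · refine Finset.mem_erase.2 ⟨fun h4 => hyS (h4 ▸ heS'), ?_⟩
            rw [← hcc]
            exact hUo e' heU' _ hlne
          · exact Finset.erase_subset_erase y (hBP _ _)
        · by_cases h4 : i = l e'
          · subst h4
            refine h2.2.2.subset (Finset.coe_subset.2 ?_)
            rw [Finset.insert_comm]
            refine Finset.insert_subset_insert e' (Finset.insert_subset ?_ ?_)
            · exact Finset.mem_erase.2 ⟨fun h5 => hyS (h5.subst (motive := fun x => x ∈ S) heS),
                hUo e heU _ h3⟩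
            · exact Finset.erase_subset_erase y (hBP _ _)
          · refine (hPi i (cls e)).subset (Finset.coe_subset.2 ?_)
            refine Finset.insert_subset (hUo e heU i h3) (Finset.insert_subset ?_ ?_)
            · rw [← hcc]
              exact hUo e' heU' i h4
            · exact (Finset.erase_subset _ _).trans (hBP i _)
      · intro x hx
        rw [Finset.mem_insert, Finset.mem_insert, Finset.mem_erase, hBi, Finset.mem_filter] at hx
        rw [Finset.mem_union, Finset.mem_insert, Finset.mem_singleton]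
        tauto
      · rw [Finset.sum_insert, Finset.sum_insert (fun h3 => heBi' (Finset.mem_of_mem_erase h3))]
        · have h3 := pot_lt h B e
          have h4 := Finset.add_sum_erase Bi u hyBi
          have h5 : u y = u e := h.u1 _ _ hc1
          have h6 : u e' = u e := h.u1 _ _ hcc
          rw [← hBi] at h3
          linarith
        · intro h3
          rw [Finset.mem_insert] at h3
          rcases h3 with h3 | h3
          · exact hne h3
          · exact heBi (Finset.mem_of_mem_erase h3)

/-- Many disjoint weighted augmentations. -/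
theorem many_augW {k : ℕ} (hk : 1 ≤ k) (M : Fin k → Matroid E) (hE : ∀ i, (M i).E = Set.univ)
    {cls : E → ℕ} {v u : E → ℝ} (h : Cls cls v u)
    {B : Finset E} (hB : ∀ i, (M i).Indep (B : Set E)) (n : ℕ) :
    ∀ S : Finset E, S.card = n → (∀ i, (M i).Indep (S : Set E)) →
      ∃ F : Finset (Finset E), (∀ X ∈ F, X ⊆ S ∧ X.Nonempty ∧ AugmW M u B X) ∧
        ((F : Set (Finset E)).PairwiseDisjoint id) ∧
        2 * ∑ e ∈ S, v e ≤ 2 * ∑ X ∈ F, ∑ e ∈ X, v e + (k + 1) * ∑ e ∈ B, v e := by
  classical
  induction n using Nat.strong_induction_on with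
  | _ n ih =>
    intro S hSn hS
    rcases lt_or_ge ((k + 1) * ∑ e ∈ B, v e) (2 * ∑ e ∈ S, v e) with hlt | hge
    · obtain ⟨X, hX1, hX2, hX4⟩ := augmentW hk M hE h hB hS hlt
      have hXS : X ⊆ S := hX1.trans Finset.sdiff_subset
      have hXpos : 0 < X.card := Finset.card_pos.2 hX2
      have hcard : (S \ X).card + X.card = S.card := Finset.card_sdiff_add_card_eq_card hXS
      obtain ⟨F, hF1, hF2, hF3⟩ := ih (S \ X).card (by omega) (S \ X) rfl
        (fun i => (hS i).subset (Finset.coe_subset.2 Finset.sdiff_subset))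
      have hXF : X ∉ F := by
        intro h1
        obtain ⟨e, he⟩ := hX2
        exact (Finset.mem_sdiff.1 ((hF1 X h1).1 he)).2 he
      refine ⟨insert X F, ?_, ?_, ?_⟩
      · intro Y hY
        rcases Finset.mem_insert.1 hY with rfl | hY
        · exact ⟨hXS, hX2, hX4⟩
        · exact ⟨(hF1 Y hY).1.trans Finset.sdiff_subset, (hF1 Y hY).2⟩
      · rw [Finset.coe_insert]
        refine hF2.insert fun Y hY _ => ?_
        rw [id, id, Finset.disjoint_left]
        intro e he he'
        exact (Finset.mem_sdiff.1 ((hF1 Y (Finset.mem_coe.1 hY)).1 he')).2 he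
      · rw [Finset.sum_insert hXF]
        have h1 : ∑ e ∈ S \ X, v e + ∑ e ∈ X, v e = ∑ e ∈ S, v e := Finset.sum_sdiff hXS
        linarith
    · refine ⟨∅, by simp, by simp, ?_⟩
      simpa using hge

end Pool.Agent.Helper39.SR
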